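import Pool.Agent.helper97.TQ6.Defs

set_option autoImplicit false

/-!
# Two-queue graphs: filling the gap between two consecutive hits

The left part (lower vertices `< s`, upper vertices `≤ p (s+1)`) keeps its colours, the run
`p (s+1) .. p s'` of upper vertices is coloured by rotation, the colours of the right part are permuted.
-/

namespace Pool.Agent.helper97.TQ6

private lemma rl_ex (α β : ZMod 3) : ∃ d : ZMod 3, d ≠ 0 ∧ (α ≠ β → α = β + d) := by
  revert α β; decide

private lemma rl_m1 (d : ZMod 3) (h : d ≠ 0) : d + d ≠ 0 := by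
  revert d; decide

private lemma rl_m2 (d e α β : ZMod 3) (hd : d ≠ 0) (h : α ≠ β) (he : e * (α - β) = d) : e ≠ 0 := by
  revert d e α β; decide

private lemma rl_ex2 (d δ : ZMod 3) (hd : d ≠ 0) : ∃ e : ZMod 3, e ≠ 0 ∧ (δ ≠ 0 → e * δ = d) := by
  revert d δ; decide

private lemma rl_sig (e z α β : ZMod 3) (he : e ≠ 0) (h : α ≠ β) (r : ZMod 3) :
    r + e * (α - z) ≠ r + e * (β - z) := by
  intro h1
  apply h
  have h2 : e * (α - z) = e * (β - z) := add_left_cancel h1
  have h3 : e * e = 1 := (by decide : ∀ e : ZMod 3, e ≠ 0 → e * e = 1) e he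
  have h4 : e * (e * (α - z)) = e * (e * (β - z)) := by rw [h2]
  rw [← mul_assoc, ← mul_assoc, h3, one_mul, one_mul] at h4
  exact sub_left_injective h4

private lemma rl_run (r d : ZMod 3) (hd : d ≠ 0) {x y : ℕ} (h1 : x < y) (h2 : y ≤ x + 2) :
    r + d * (x : ZMod 3) ≠ r + d * (y : ZMod 3) := by
  intro h
  have h3 : d * (x : ZMod 3) = d * (y : ZMod 3) := add_left_cancel h
  have h5 : y = x + 1 ∨ y = x + 2 := by omega
  rcases h5 with rfl | rfl
  · push_cast at h3
    have : ∀ t d : ZMod 3, d ≠ 0 → d * t = d * (t + 1) → False := by decide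
    exact this _ _ hd h3
  · push_cast at h3
    have : ∀ t d : ZMod 3, d ≠ 0 → d * t = d * (t + 2) → False := by decide
    exact this _ _ hd h3

/-- (B) filling the gap between two consecutive hits keeps the level colourable -/
theorem rl {p : ℕ → ℕ} (hp : Monotone p) {a b : ℕ} {Xl U : Set ℕ} {c : ℕ → ZMod 3}
    (h : Good p a b Xl U c) (hU : ∀ u ∈ U, b ≤ u) {s s' : ℕ} (has : a ≤ s) (hss : s < s')
    (hs'b : s' ≤ b) (hs : s ∈ Xl) (hs' : s' ∈ Xl ∨ s' = b) (hw : p (s + 1) ∈ U) (hw' : p s' ∈ U) :
    ∃ c', Good p a b (Xl ∪ Set.Ioo s s') (U ∪ Set.Icc (p (s + 1)) (p s')) c' := by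
  have hww : p (s + 1) ≤ p s' := hp hss
  rcases hww.eq_or_lt with heq | hlt
  · -- nothing is added
    refine ⟨c, ?_, ?_, ?_⟩
    · intro x y h1 h2 h3 h4 h5 h6
      exact h.low x y h1 h2 h3 h4 (fun h7 => h5 (Or.inl h7)) (fun h7 => h6 (Or.inl h7))
    · have hUU : ∀ u ∈ U ∪ Set.Icc (p (s + 1)) (p s'), u ∈ U := by
        rintro u (h1 | h1)
        · exact h1
        · have : u = p (s + 1) := le_antisymm (heq ▸ h1.2) h1.1
          rw [this]; exact hw
      intro x y h1 h2 h3 h4
      exact h.up x y h1 h2 (hUU _ h3) (hUU _ h4)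
    · have hUU : ∀ u ∈ U ∪ Set.Icc (p (s + 1)) (p s'), u ∈ U := by
        rintro u (h1 | h1)
        · exact h1
        · have : u = p (s + 1) := le_antisymm (heq ▸ h1.2) h1.1
          rw [this]; exact hw
      intro x y h1 h2 h3 h4 h5 h6
      exact h.cross x y h1 h2 (fun h7 => h3 (Or.inl h7)) (hUU _ h4) h5 h6
  · set w := p (s + 1) with hwdef
    set w' := p s' with hw'def
    have hbw : b ≤ w := hU _ hw
    obtain ⟨d, hd0, hd⟩ := rl_ex (c w) (c (w - 1))
    obtain ⟨e, he0, he⟩ := rl_ex2 d (c (w' + 1) - c w') hd0
    set rr : ℕ → ZMod 3 := fun n => c w + d * ((n - w : ℕ) : ZMod 3) with hrr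
    set sg : ZMod 3 → ZMod 3 := fun z => rr w' + e * (z - c w') with hsg
    set c' : ℕ → ZMod 3 := fun n => if n ≤ s then c n else if n < b then sg (c n) else
      if n ≤ w then c n else if n ≤ w' then rr n else sg (c n) with hc'
    have hsb : s < b := lt_of_lt_of_le hss hs'b
    -- values
    have v1 : ∀ n, n ≤ s → c' n = c n := fun n hn => if_pos hn
    have v2 : ∀ n, s < n → n < b → c' n = sg (c n) := by
      intro n h1 h2
      simp only [hc']
      rw [if_neg (by omega), if_pos h2]
    have v3 : ∀ n, b ≤ n → n ≤ w → c' n = c n := by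
      intro n h1 h2
      simp only [hc']
      rw [if_neg (by omega), if_neg (by omega), if_pos h2]
    have v4 : ∀ n, w ≤ n → n ≤ w' → c' n = rr n := by
      intro n h1 h2
      rcases h1.eq_or_lt with h3 | h3
      · rw [v3 n (by omega) (by omega)]
        simp only [hrr, ← h3, Nat.sub_self, Nat.cast_zero, mul_zero, add_zero]
      · simp only [hc']
        rw [if_neg (by omega), if_neg (by omega), if_neg (by omega), if_pos h2]
    have v5 : ∀ n, w' ≤ n → c' n = sg (c n) := by
      intro n h1
      rcases h1.eq_or_lt with h3 | h3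
      · rw [v4 n (by omega) (by omega), ← h3]
        simp only [hsg, sub_self, mul_zero, add_zero]
      · simp only [hc']
        rw [if_neg (by omega), if_neg (by omega), if_neg (by omega), if_neg (by omega)]
    have sgne : ∀ α β, α ≠ β → sg α ≠ sg β := fun α β hab => rl_sig e _ α β he0 hab _
    have notU : ∀ y, y ∈ U ∪ Set.Icc w w' → y ≤ w ∨ w' ≤ y → y ∈ U := by
      rintro y (h1 | h1) h2
      · exact h1
      · rcases h2 with h2 | h2
        · rw [le_antisymm h2 h1.1]; exact hw
        · rw [le_antisymm h1.2 h2]; exact hw'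
    have bU : ∀ y, y ∈ U ∪ Set.Icc w w' → b ≤ y := by
      rintro y (h1 | h1)
      · exact hU _ h1
      · exact hbw.trans h1.1
    have right : ∀ x, x < b → x ∉ Xl ∪ Set.Ioo s s' → s < x → s' < x := by
      intro x h1 h2 h3
      by_contra h4
      rcases (not_lt.mp h4).eq_or_lt with h5 | h5
      · rcases hs' with h6 | h6
        · exact h2 (Or.inl (h5 ▸ h6))
        · omega
      · exact h2 (Or.inr ⟨h3, h5⟩)
    refine ⟨c', ?_, ?_, ?_⟩
    · intro x y h1 h2 h3 h4 h5 h6
      have h7 := h.low x y h1 h2 h3 h4 (fun h7 => h5 (Or.inl h7)) (fun h7 => h6 (Or.inl h7))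
      have hxs : x ≠ s := fun h8 => h5 (Or.inl (h8 ▸ hs))
      rcases le_or_gt y s with h8 | h8
      · rw [v1 x (by omega), v1 y h8]
        exact h7
      · have h9 := right y h4 h6 h8
        have h10 : s < x := by omega
        rw [v2 x h10 (by omega), v2 y h8 h4]
        exact sgne _ _ h7
    · intro x y h1 h2 h3 h4
      have hbx := bU x h3
      have hby := bU y h4
      rcases le_or_gt y w with h5 | h5
      · rw [v3 x hbx (by omega), v3 y hby h5]
        exact h.up x y h1 h2 (notU x h3 (Or.inl (by omega))) (notU y h4 (Or.inl h5))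
      · rcases lt_or_ge x w with h6 | h6
        · -- x = w - 1, y = w + 1
          have hxw : x = w - 1 := by omega
          have hyw : y = w + 1 := by omega
          have h7 : c x ≠ c w := h.up x w (by omega) (by omega) (notU x h3 (Or.inl (by omega))) hw
          rw [v3 x hbx (by omega), v4 y (by omega) (by omega)]
          have h8 := hd (by rw [← hxw]; exact h7.symm)
          simp only [hrr]
          rw [hyw, Nat.add_sub_cancel_left, Nat.cast_one, mul_one, h8, ← hxw, add_assoc]
          intro h9
          exact rl_m1 d hd0 (left_eq_add.mp h9)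
        · rcases le_or_gt y w' with h7 | h7
          · rw [v4 x h6 (by omega), v4 y (by omega) h7]
            exact rl_run _ d hd0 (by omega) (by omega)
          · rcases le_or_gt w' x with h8 | h8
            · rw [v5 x h8, v5 y (by omega)]
              exact sgne _ _ (h.up x y h1 h2 (notU x h3 (Or.inr h8)) (notU y h4 (Or.inr (by omega))))
            · -- x = w' - 1, y = w' + 1
              have hyw : y = w' + 1 := by omega
              have hyU := notU y h4 (Or.inr (by omega))
              have h9 : c w' ≠ c y := h.up w' y (by omega) (by omega) hw' hyU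
              have h10 : c (w' + 1) - c w' ≠ 0 := by
                rw [← hyw]
                exact sub_ne_zero.mpr h9.symm
              rw [v4 x h6 (by omega), v5 y (by omega)]
              simp only [hsg]
              rw [hyw, he h10]
              simp only [hrr]
              have h11 : w' - w = (x - w) + 1 := by omega
              rw [h11]
              push_cast
              intro h12
              have : ∀ r d t : ZMod 3, d ≠ 0 → r + d * t = r + d * (t + 1) + d → False := by decide
              exact this _ _ _ hd0 h12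
    · intro x y h1 h2 h3 h4 h5 h6
      have hby := bU y h4
      have hxX : x ∉ Xl := fun h7 => h3 (Or.inl h7)
      rcases lt_trichotomy x s with h7 | h7 | h7
      · have h8 : y ≤ w := h6.trans (hp (by omega))
        rw [v1 x (by omega), v3 y hby h8]
        exact h.cross x y h1 h2 hxX (notU y h4 (Or.inl h8)) h5 h6
      · exact absurd (h7 ▸ hs) hxX
      · have h8 := right x h2 h3 h7
        have h9 : w' ≤ y := le_trans (hp (by omega)) h5
        rw [v2 x h7 h2, v5 y h9]
        exact sgne _ _ (h.cross x y h1 h2 hxX (notU y h4 (Or.inr h9)) h5 h6)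

end Pool.Agent.helper97.TQ6
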